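import Pool.Agent.MWKP.StmtsN

/-!
# Squad MWKP (MP_23468a_al), row CTN: content and simple letters, period `n`
-/

set_option autoImplicit false

namespace Pool.Agent.MWKP.H64

open Pool.Agent.Helper14_MV Pool.Agent.Helper2_MV Pool.Agent.MWK Pool.Agent.MWKP

theorem flat_rep (k c : ℕ) : (List.replicate k c).flatMap (fun _ => [0]) = List.replicate k 0 := by
  induction k with
  | zero => rfl
  | succ k ih =>
    rw [List.replicate_succ, List.flatMap_cons, ih, List.replicate_succ]
    rfl

theorem ofList_rep (k : ℕ) : FreeMonoid.ofList (List.replicate k 0) = lx ^ k := by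
  induction k with
  | zero => rfl
  | succ k ih =>
    rw [List.replicate_succ', FreeMonoid.ofList_append, ih, pow_succ]
    rfl

/-- `x^(k+1) ≈ x` does not hold -/
theorem no1 {n : ℕ} {β : FIC} (hβ : Gn n β) (k : ℕ) (hk : 1 ≤ k) :
    ¬ RR β (List.replicate (k + 1) 0) [0] := by
  intro h
  unfold RR at h
  rw [ofList_rep] at h
  exact hβ.ncr k hk h

theorem pows {n : ℕ} {β : FIC} (hβ : Gn n β) (u v : List ℕ) (h : RR β u v) (c : ℕ) :
    (u.count c = 1 → v.count c = 1) ∧ (u.count c = 0 → v.count c = 0) := by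
  have h1 := h.filter (fun d => d == c)
  have e1 : ∀ w : List ℕ, w.filter (fun d => d == c) = List.replicate (w.count c) c := fun w =>
    List.filter_beq c
  rw [e1, e1] at h1
  have h2 := h1.sub (fun _ => [0])
  rw [flat_rep, flat_rep] at h2
  have h3 := h2.append (RR.refl (β := β) [0])
  have e3 : ∀ a : ℕ, List.replicate a 0 ++ [0] = List.replicate (a + 1) 0 := fun a =>
    List.replicate_succ'.symm
  rw [e3, e3] at h3
  constructor
  · intro hu
    rw [hu] at h2 h3
    by_contra hv
    rcases Nat.eq_zero_or_pos (v.count c) with h0 | h0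
    · rw [h0] at h3
      exact no1 hβ 1 le_rfl h3
    · obtain ⟨k, hk⟩ : ∃ k, v.count c = k + 1 := ⟨v.count c - 1, by omega⟩
      rw [hk] at h2
      exact no1 hβ k (by omega) h2.symm
  · intro hu
    rw [hu] at h3
    by_contra hv
    exact no1 hβ (v.count c) (by omega) h3.symm

/-- **CTN** -/
theorem ctn : CtnStmt := by
  intro n β hβ u v h c
  have h1 := pows hβ u v h c
  have h2 := pows hβ v u h.symm c
  refine ⟨?_, h1.1, h2.1⟩
  constructor
  · intro hu
    by_contra hv
    exact (List.count_eq_zero.1 (h2.2 (List.count_eq_zero.2 hv))) hu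
  · intro hv
    by_contra hu
    exact (List.count_eq_zero.1 (h1.2 (List.count_eq_zero.2 hu))) hv

end Pool.Agent.MWKP.H64
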